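import Mathlib

/-! Abstract odd theta functions of a lattice and spaces of theta functions. -/

namespace Pool.Agent.StarkCU

open Complex Filter Topology

/-- `th` is an odd theta function of the lattice spanned by `g` and `b`. -/
structure OddTheta (g b : ℂ) (A B th : ℂ → ℂ) : Prop where
  ind : (g / b).im ≠ 0
  diff : Differentiable ℂ th
  odd : ∀ z, th (-z) = -th z
  zero : ∀ z, th z = 0 ↔ ∃ i j : ℤ, z = i * g + j * b
  simple : deriv th 0 ≠ 0
  per : ∀ m, th m = 0 → ∀ z, th (z + m) = cexp (A m * z + B m) * th z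

/-- `N` is entire and transforms like a product of `d` functions `th (z - c)` with sum of the
`c` equal to `s`. -/
structure Th (A B th : ℂ → ℂ) (d : ℕ) (s : ℂ) (N : ℂ → ℂ) : Prop where
  diff : Differentiable ℂ N
  per : ∀ m, th m = 0 → ∀ z, N (z + m) = cexp (d * (A m * z + B m) - A m * s) * N z

theorem entire_mul_eq_zero {f h : ℂ → ℂ} (hf : Differentiable ℂ f) (hh : Differentiable ℂ h)
    (e : ∀ z, f z * h z = 0) : (∀ z, f z = 0) ∨ ∀ z, h z = 0 := by
  have := AnalyticOnNhd.eq_zero_or_eq_zero_of_mul_eq_zero (U := Set.univ)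
    (fun z _ => hf.analyticAt z) (fun z _ => hh.analyticAt z) (fun z _ => e z) isPreconnected_univ
  exact this.imp (fun h z => h z trivial) fun h z => h z trivial

variable {g b : ℂ} {A B th : ℂ → ℂ} {d d' : ℕ} {s s' : ℂ} {N N' : ℂ → ℂ}

namespace Th

theorem congr (h : Th A B th d s N) (e : s = s') : Th A B th d s' N := e ▸ h

theorem mul (h : Th A B th d s N) (h' : Th A B th d' s' N') :
    Th A B th (d + d') (s + s') fun z => N z * N' z := by
  refine ⟨h.diff.mul h'.diff, fun m hm z => ?_⟩
  rw [h.per m hm, h'.per m hm, mul_mul_mul_comm, ← Complex.exp_add]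
  congr 2
  push_cast; ring

theorem add (h : Th A B th d s N) (h' : Th A B th d s N') :
    Th A B th d s fun z => N z + N' z :=
  ⟨h.diff.add h'.diff, fun m hm z => by rw [h.per m hm, h'.per m hm, ← mul_add]⟩

theorem sub (h : Th A B th d s N) (h' : Th A B th d s N') :
    Th A B th d s fun z => N z - N' z :=
  ⟨h.diff.sub h'.diff, fun m hm z => by rw [h.per m hm, h'.per m hm, mul_sub]⟩

theorem const_mul (h : Th A B th d s N) (c : ℂ) : Th A B th d s fun z => c * N z :=
  ⟨h.diff.const_mul c, fun m hm z => by rw [h.per m hm, mul_left_comm]⟩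

end Th

namespace OddTheta

variable (h : OddTheta g b A B th)
include h

theorem th_zero : th 0 = 0 := (h.zero 0).2 ⟨0, 0, by simp⟩

theorem th_g : th g = 0 := (h.zero g).2 ⟨1, 0, by simp⟩

theorem th_b : th b = 0 := (h.zero b).2 ⟨0, 1, by simp⟩

theorem sub_swap (x y : ℂ) : th (x - y) = -th (y - x) := by rw [← h.odd, neg_sub]

theorem neg_of {x y : ℂ} (e : x + y = 0) : th x = -th y := by
  rw [← h.odd, eq_neg_of_add_eq_zero_left e]

theorem exists_ne (c : ℂ) : ¬ ∀ z, th (z - c) = 0 := fun e => h.simple <| by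
  have : th = fun _ => 0 := funext fun z => by simpa using e (z + c)
  simp [this]

theorem cancel {f : ℂ → ℂ} (hf : Differentiable ℂ f) (c : ℂ) (e : ∀ z, th (z - c) * f z = 0) (z : ℂ) :
    f z = 0 :=
  (entire_mul_eq_zero (f := fun z => th (z - c)) (h.diff.comp (by fun_prop)) hf e).resolve_left
    (h.exists_ne c) z

theorem coord {x y x' y' : ℝ} (e : x * g + y * b = x' * g + y' * b) : x = x' ∧ y = y' := by
  have hb : b ≠ 0 := fun e => h.ind (by simp [e])
  have h1 : (x - x' : ℝ) * (g / b) + (y - y' : ℝ) = 0 := by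
    push_cast
    field_simp
    linear_combination e
  have h2 := congrArg Complex.im h1
  simp only [add_im, im_ofReal_mul, ofReal_im, add_zero, zero_im] at h2
  have h3 : x - x' = 0 := (mul_eq_zero.1 h2).resolve_right h.ind
  rw [h3] at h1
  exact ⟨sub_eq_zero.1 h3, sub_eq_zero.1 (by exact_mod_cast (by simpa using h1 : ((y - y' : ℝ) : ℂ) = 0))⟩

theorem base (c : ℂ) : Th A B th 1 c fun z => th (z - c) := by
  refine ⟨h.diff.comp (by fun_prop), fun m hm z => ?_⟩
  rw [add_sub_right_comm, h.per m hm]
  congr 2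
  push_cast; ring

theorem base_add (c : ℂ) : Th A B th 1 (-c) fun z => th (z + c) := by
  simpa using h.base (-c)

theorem base_neg (c : ℂ) : Th A B th 1 c fun z => th (c - z) := by
  simpa only [← h.sub_swap, neg_one_mul] using (h.base c).const_mul (-1)

theorem mult_neg {m : ℂ} (hm : th m = 0) (u : ℂ) :
    cexp (A (-m) * u + B (-m)) = cexp (A m * (-u) + B m) := by
  refine sub_eq_zero.1 (h.cancel (f := fun u => cexp (A (-m) * u + B (-m)) -
    cexp (A m * (-u) + B m)) (by fun_prop) 0 (fun z => ?_) u)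
  have h1 := h.per (-m) (by rw [h.odd, hm, neg_zero]) z
  have h2 := h.per m hm (-z)
  rw [h.odd, h.neg_of (y := z + -m) (by ring), h1] at h2
  rw [sub_zero]
  linear_combination -h2

theorem refl (hN : Th A B th d s N) (Z : ℂ) : Th A B th d (d * Z - s) fun z => N (Z - z) := by
  refine ⟨hN.diff.comp (by fun_prop), fun m hm z => ?_⟩
  have hm' : th (-m) = 0 := by rw [h.odd, hm, neg_zero]
  rw [show Z - (z + m) = Z - z + -m by ring, hN.per _ hm']
  congr 1
  have h1 := h.mult_neg hm (Z - z)
  have h2 := h.mult_neg hm (-s)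
  have h3 := h.mult_neg hm 0
  rw [show d * (A (-m) * (Z - z) + B (-m)) - A (-m) * s = d * (A (-m) * (Z - z) + B (-m)) +
    (A (-m) * -s + B (-m)) - (A (-m) * 0 + B (-m)) by ring, Complex.exp_sub, Complex.exp_add,
    Complex.exp_nat_mul, h1, h2, h3, ← Complex.exp_nat_mul, ← Complex.exp_add, ← Complex.exp_sub]
  congr 1
  ring

/-- An entire elliptic function is constant. -/
theorem const_of_per {f : ℂ → ℂ} (hf : Differentiable ℂ f) (hp : ∀ m, th m = 0 → ∀ z, f (z + m) = f z)
    (z w : ℂ) : f z = f w := by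
  refine hf.apply_eq_apply_of_bounded ?_ z w
  refine ((isCompact_closedBall (0 : ℂ) (‖g‖ + ‖b‖)).image hf.continuous).isBounded.subset ?_
  rintro _ ⟨u, rfl⟩
  have hb : b ≠ 0 := fun e => h.ind (by simp [e])
  obtain ⟨x, y, e⟩ : ∃ x y : ℝ, u = x * g + y * b := by
    refine ⟨(u / b).im / (g / b).im, (u / b).re - (u / b).im / (g / b).im * (g / b).re, ?_⟩
    have : u / b = ((u / b).im / (g / b).im : ℝ) * (g / b) +
        ((u / b).re - (u / b).im / (g / b).im * (g / b).re : ℝ) := by
      apply Complex.ext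
      · simp only [add_re, re_ofReal_mul, ofReal_re]; ring
      · simp only [add_im, im_ofReal_mul, ofReal_im, add_zero]
        rw [div_mul_cancel₀ _ h.ind]
    rw [div_eq_iff hb] at this
    rw [add_mul, mul_assoc, div_mul_cancel₀ _ hb] at this
    exact this
  refine ⟨(Int.fract x : ℝ) * g + (Int.fract y : ℝ) * b, ?_, ?_⟩
  · rw [mem_closedBall_zero_iff]
    refine (norm_add_le _ _).trans (add_le_add ?_ ?_) <;>
      rw [norm_mul, Complex.norm_real, Real.norm_of_nonneg (Int.fract_nonneg _)] <;>
      exact mul_le_of_le_one_left (norm_nonneg _) (Int.fract_lt_one _).le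
  · rw [← hp _ ((h.zero _).2 ⟨⌊x⌋, ⌊y⌋, rfl⟩), e]
    congr 1
    simp only [Int.fract]
    push_cast; ring

theorem deg_zero (hN : Th A B th 0 s N) {c : ℂ} (hc : N c = 0) (z : ℂ) : N z = 0 := by
  have h1 := hN.mul (h.refl hN 0)
  have h2 : ∀ z, N z * N (0 - z) = 0 := fun z => by
    have := h.const_of_per h1.diff (fun m hm z => by simpa using h1.per m hm z) z c
    simpa [hc] using this
  rcases entire_mul_eq_zero hN.diff (h.refl hN 0).diff h2 with e | e
  · exact e z
  · simpa using e (-z)

theorem deriv_ne {m : ℂ} (hm : th m = 0) : deriv th m ≠ 0 := by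
  have h1 : HasDerivAt (fun z => th (z + m)) (deriv th m) 0 := by
    have := (h.diff (0 + m)).hasDerivAt.comp_add_const 0 m
    rwa [zero_add] at this
  have h2 : HasDerivAt (fun z => cexp (A m * z + B m) * th z)
      (deriv (fun z => cexp (A m * z + B m)) 0 * th 0 + cexp (A m * 0 + B m) * deriv th 0) 0 :=
    (DifferentiableAt.hasDerivAt (by fun_prop)).mul (h.diff 0).hasDerivAt
  rw [funext (h.per m hm)] at h1
  rw [h1.unique h2, h.th_zero, mul_zero, zero_add]
  exact mul_ne_zero (Complex.exp_ne_zero _) h.simple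

/-- An entire function that vanishes on `c + M` is divisible by `th (z - c)`. -/
theorem dvd_entire (hN : Differentiable ℂ N) (c : ℂ) (hc : ∀ z, th (z - c) = 0 → N z = 0) :
    ∃ Q : ℂ → ℂ, Differentiable ℂ Q ∧ ∀ z, N z = th (z - c) * Q z := by
  classical
  have ht : Differentiable ℂ fun z => th (z - c) := (h.base c).diff
  refine ⟨fun z => if th (z - c) = 0 then deriv N z / deriv (fun z => th (z - c)) z
    else N z / th (z - c), fun w => ?_, fun z => ?_⟩
  · by_cases hw : th (w - c) = 0
    · have d1 : DifferentiableAt ℂ (dslope N w) w :=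
        ((differentiableOn_dslope univ_mem).2 hN.differentiableOn).differentiableAt univ_mem
      have d2 : DifferentiableAt ℂ (dslope (fun z => th (z - c)) w) w :=
        ((differentiableOn_dslope univ_mem).2 ht.differentiableOn).differentiableAt univ_mem
      have d3 : dslope (fun z => th (z - c)) w w ≠ 0 := by
        rw [dslope_same, deriv_comp_sub_const]
        exact h.deriv_ne hw
      refine (d1.div d2 d3).congr_of_eventuallyEq ?_
      filter_upwards [d2.continuousAt.eventually_ne d3] with z hz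
      by_cases e : z = w
      · subst e
        simp only [if_pos hw, Pi.div_apply, dslope_same]
      · have e1 := sub_smul_dslope N w z
        have e2 := sub_smul_dslope (fun z => th (z - c)) w z
        rw [hc w hw, sub_zero, smul_eq_mul] at e1
        simp only [hw, sub_zero, smul_eq_mul] at e2
        have e3 := sub_ne_zero.2 e
        rw [if_neg (by rw [← e2]; exact mul_ne_zero e3 hz), ← e1, ← e2, Pi.div_apply,
          mul_div_mul_left _ _ e3]
    · refine ((hN w).div (ht w) hw).congr_of_eventuallyEq ?_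
      filter_upwards [(ht w).continuousAt.eventually_ne hw] with z hz
      simp only [if_neg hz, Pi.div_apply]
  · by_cases e : th (z - c) = 0
    · rw [hc z e, e, zero_mul]
    · simp only [if_neg e]
      rw [mul_div_cancel₀ _ e]

theorem div (hN : Th A B th (d + 1) s N) {c : ℂ} (hc : N c = 0) :
    ∃ Q : ℂ → ℂ, Th A B th d (s - c) Q ∧ ∀ z, N z = th (z - c) * Q z := by
  obtain ⟨Q, hQ, e⟩ := h.dvd_entire hN.diff c fun z hz => by
    have := hN.per _ hz c
    rwa [add_sub_cancel, hc, mul_zero] at this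
  refine ⟨Q, ⟨hQ, fun m hm z => sub_eq_zero.1 (h.cancel (f := fun z => Q (z + m) -
    cexp (d * (A m * z + B m) - A m * (s - c)) * Q z) (by fun_prop) c (fun z => ?_) z)⟩, e⟩
  have h1 := hN.per m hm z
  rw [e, e, (h.base c).per m hm, show ((d + 1 : ℕ) : ℂ) * (A m * z + B m) - A m * s =
    ((1 : ℕ) * (A m * z + B m) - A m * c) + (d * (A m * z + B m) - A m * (s - c)) by
      push_cast; ring, Complex.exp_add] at h1
  refine mul_left_cancel₀ (Complex.exp_ne_zero ((1 : ℕ) * (A m * z + B m) - A m * c)) ?_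
  linear_combination h1

/-- A theta function of degree `d` with `d + 1` incongruent zeros vanishes. -/
theorem vanish (l : List ℂ) : ∀ {d : ℕ} {s : ℂ} {N : ℂ → ℂ}, Th A B th d s N →
    l.length = d + 1 → (∀ x ∈ l, N x = 0) → (l.Pairwise fun x y => th (y - x) ≠ 0) →
    ∀ z, N z = 0 := by
  induction l with
  | nil => intro d s N _ e; simp at e
  | cons c l ih =>
    intro d s N hN e h0 hp z
    cases d with
    | zero => exact h.deg_zero hN (h0 c (by simp)) z
    | succ d =>
      obtain ⟨Q, hQ, e1⟩ := h.div hN (h0 c (by simp))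
      rw [List.pairwise_cons] at hp
      rw [e1, ih hQ (by simpa using e) (fun x hx => ?_) hp.2, mul_zero]
      have := h0 x (by simp [hx])
      rw [e1] at this
      exact (mul_eq_zero.1 this).resolve_left (hp.1 x hx)

theorem half_ne {i j : ℤ} (hij : Odd i ∨ Odd j) : th ((i * g + j * b) / 2) ≠ 0 := fun e => by
  obtain ⟨k, l, e⟩ := (h.zero _).1 e
  obtain ⟨e1, e2⟩ := h.coord (x := i) (y := j) (x' := 2 * k) (y' := 2 * l) (by
    push_cast; linear_combination 2 * e)
  have e3 : i = 2 * k := by exact_mod_cast e1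
  have e4 : j = 2 * l := by exact_mod_cast e2
  rcases hij with ⟨a, ha⟩ | ⟨a, ha⟩ <;> omega

theorem odd_two {Z : ℂ} (hN : Th A B th 2 Z N) (ho : ∀ v, N (Z - v) = -N v) (v : ℂ) : N v = 0 := by
  have key : ∀ m, th m = 0 → th (m / 2) ≠ 0 → N ((Z + m) / 2) = 0 := fun m hm hm2 => by
    have h1 := h.per m hm (-(m / 2))
    rw [h.odd, show -(m / 2) + m = m / 2 by ring] at h1
    have h2 : cexp (A m * -(m / 2) + B m) = -1 := mul_right_cancel₀ hm2 (by linear_combination h1)
    have h3 := hN.per m hm (Z - (Z + m) / 2)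
    rw [ho, show Z - (Z + m) / 2 + m = (Z + m) / 2 by ring,
      show ((2 : ℕ) : ℂ) * (A m * (Z - (Z + m) / 2) + B m) - A m * Z =
        (2 : ℕ) * (A m * -(m / 2) + B m) by push_cast; ring, Complex.exp_nat_mul, h2] at h3
    linear_combination h3 / 2
  have h1 := h.half_ne (i := 1) (j := 0) (Or.inl odd_one)
  have h2 := h.half_ne (i := 0) (j := 1) (Or.inr odd_one)
  have h3 := h.half_ne (i := -1) (j := 1) (Or.inr odd_one)
  simp only [Int.cast_one, Int.cast_zero, Int.cast_neg, one_mul, zero_mul, add_zero, zero_add] at h1 h2 h3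
  refine h.vanish [Z / 2, (Z + g) / 2, (Z + b) / 2] hN rfl ?_ ?_ v
  · simp only [List.mem_cons, List.not_mem_nil, or_false, forall_eq_or_imp, forall_eq]
    refine ⟨?_, key g h.th_g h1, key b h.th_b h2⟩
    have := ho (Z / 2)
    rw [show Z - Z / 2 = Z / 2 by ring] at this
    linear_combination this / 2
  · simp only [List.pairwise_cons, List.mem_cons, List.not_mem_nil, or_false, forall_eq_or_imp,
      forall_eq, List.Pairwise.nil, IsEmpty.forall_iff, implies_true, and_true]
    refine ⟨⟨?_, ?_⟩, ?_⟩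
    · convert h1 using 2; ring
    · convert h2 using 2; ring
    · convert h3 using 2; ring

/-- A theta function of degree `2 k + 2` that is odd about `Z / 2` and has `k` further zeros in
general position vanishes. -/
theorem odd_vanish (Z : ℂ) (l : List ℂ) : ∀ {N : ℂ → ℂ},
    Th A B th (2 * l.length + 2) ((l.length + 1) * Z) N → (∀ v, N (Z - v) = -N v) →
    (∀ x ∈ l, N x = 0 ∧ th (Z - x - x) ≠ 0) →
    (l.Pairwise fun x y => th (y - x) ≠ 0 ∧ th (Z - x - y) ≠ 0) → ∀ v, N v = 0 := by
  induction l with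
  | nil => intro N hN ho _ _; exact h.odd_two (hN.congr (by simp)) ho
  | cons c l ih =>
    intro N hN ho h0 hp v
    rw [List.pairwise_cons] at hp
    obtain ⟨h1, h2⟩ := h0 c (by simp)
    obtain ⟨Q, hQ, e1⟩ := h.div (d := 2 * l.length + 2 + 1) hN h1
    have h3 : Q (Z - c) = 0 := by
      have := ho c
      rw [h1, neg_zero, e1] at this
      exact (mul_eq_zero.1 this).resolve_left h2
    obtain ⟨R, hR, e2⟩ := h.div hQ h3
    have h4 : ∀ v, R (Z - v) = -R v := fun v => by
      refine eq_neg_of_add_eq_zero_left (h.cancel (f := fun v => R (Z - v) + R v)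
        ((h.refl hR Z).diff.add hR.diff) (Z - c) (h.cancel (f := fun v => th (v - (Z - c)) *
          (R (Z - v) + R v)) ((h.base _).diff.mul ((h.refl hR Z).diff.add hR.diff)) c
          fun z => ?_) v)
      have := ho z
      rw [e1, e1, e2, e2, h.neg_of (x := Z - z - c) (y := z - (Z - c)) (by ring),
        h.neg_of (x := Z - z - (Z - c)) (y := z - c) (by ring)] at this
      linear_combination this
    rw [e1, e2, ih (hR.congr (by simp only [List.length_cons]; push_cast; ring)) h4
      (fun x hx => ⟨?_, (h0 x (by simp [hx])).2⟩) hp.2, mul_zero, mul_zero]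
    have := (h0 x (by simp [hx])).1
    rw [e1, e2, h.sub_swap x (Z - c)] at this
    exact (mul_eq_zero.1 ((mul_eq_zero.1 this).resolve_left (hp.1 x hx).1)).resolve_left
      (neg_ne_zero.2 (hp.1 x hx).2)

end OddTheta

end Pool.Agent.StarkCU
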