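import Pool.Agent.Lib.MP_ca56d1_nt.C.St

/-! Shared definitions for the values of the elliptic gamma function over a complex cubic field. -/

namespace Pool.Agent.CU

open Complex Filter Topology Pool.Agent.RM
open scoped Real Classical

/-- The exponential `exp (2 π i z)`. -/
noncomputable def ee (z : ℂ) : ℂ := cexp (2 * π * I * z)

/-- `z` is a root of unity. -/
def Mu (z : ℂ) : Prop := ∃ n : ℕ, n ≠ 0 ∧ z ^ n = 1

/-- `G t = c 0 / t ^ 2 + c 1 / t + c 2 + c 3 * t + o(t)` as `t → 0+`. -/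
def Xp (G : ℝ → ℝ) (c : Fin 4 → ℝ) : Prop :=
  Tendsto (fun t => (G t - (c 0 / t ^ 2 + c 1 / t + c 2)) / t) (𝓝[>] 0) (𝓝 (c 3))

variable {K : Type} [Field K] [CharZero K]

/-- `K` is a complex cubic field with real embedding `ρ` and complex embedding `σ`. -/
structure CC (ρ : K →+* ℝ) (σ : K →+* ℂ) : Prop where
  three : Module.finrank ℚ K = 3
  nonreal : ∃ x, (σ x).im ≠ 0

/-- `ε` has norm one and `ρ ε > 1`. -/
structure Eps (ρ : K →+* ℝ) (σ : K →+* ℂ) (ε : K) : Prop where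
  one_lt : 1 < ρ ε
  norm : ρ ε * ‖σ ε‖ ^ 2 = 1

/-- `L` is a lattice in `K`. -/
structure Lt (L : Submodule ℤ K) : Prop where
  fg : L.FG
  full : ∀ y : K, ∃ n : ℕ, n ≠ 0 ∧ (n : K) * y ∈ L

/-- `z` lies in `e(K)`. -/
def EK (σ : K →+* ℂ) (z : ℂ) : Prop := ∃ k : K, z = ee (σ k)

/-- `f = e(P) g` for a polynomial `P` over `K` of degree at most `d`. -/
def Eqv (σ : K →+* ℂ) (d : ℕ) (f g : ℂ → ℂ) : Prop :=
  ∃ P : Polynomial K, P.natDegree ≤ d ∧ ∀ w, f w = ee (P.eval₂ σ w) * g w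

/-- The lines parallel to `γ`. -/
abbrev Ln (γ : K) : Type := K ⧸ AddSubgroup.zmultiples γ

/-- The lines that meet `S`. -/
def lines (γ : K) (S : Set K) : Set (Ln γ) := QuotientAddGroup.mk '' S

/-- The height of a line. -/
noncomputable def lv (σ : K →+* ℂ) (γ : K) (d : Ln γ) : ℝ := (σ d.out / σ γ).im

/-- The product over the lines of `S`; it is entire in `w` with simple zeros at `σ S`. -/
noncomputable def lp (σ : K →+* ℂ) (γ : K) (S : Set K) (w : ℂ) : ℂ :=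
  ∏' d : lines γ S, (1 - ee ((σ d.1.out - w) / σ γ))

/-- The generating function of the heights of the lines of `S`. -/
noncomputable def gf (σ : K →+* ℂ) (γ : K) (S : Set K) (t : ℝ) : ℝ :=
  ∑' d : lines γ S, Real.exp (-t * lv σ γ d.1)

/-- Admissible sets of lines. -/
structure Adm (σ : K →+* ℂ) (γ : K) (S : Set K) : Prop where
  ne : γ ≠ 0
  per : ∀ x, x + γ ∈ S ↔ x ∈ S
  sum : ∀ t : ℝ, 0 < t → Summable fun d : lines γ S => Real.exp (-t * lv σ γ d.1)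
  xp : ∃ c, Xp (gf σ γ S) c

/-- The coefficients of the expansion of `gf` at zero. -/
noncomputable def co (σ : K →+* ℂ) (γ : K) (S : Set K) : Fin 4 → ℝ :=
  Classical.epsilon (Xp (gf σ γ S))

/-- The coefficient of `t` in `exp (t V) * gf t`, where `V = Im (w / σ γ)`. -/
noncomputable def nn (σ : K →+* ℂ) (γ : K) (S : Set K) (w : ℂ) : ℝ :=
  co σ γ S 3 + co σ γ S 2 * (w / σ γ).im + co σ γ S 1 * (w / σ γ).im ^ 2 / 2 +
    co σ γ S 0 * (w / σ γ).im ^ 3 / 6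

/-- The normalised logarithm of the squared absolute value of `lp`. -/
noncomputable def el (σ : K →+* ℂ) (γ : K) (S : Set K) (w : ℂ) : ℝ :=
  Real.log (‖lp σ γ S w‖ ^ 2) - 2 * π * nn σ γ S w

/-- The functional `a` is positive on the real axis. -/
def Fn (ρ : K →+* ℝ) (σ : K →+* ℂ) (a : K →ₗ[ℚ] ℚ) : Prop :=
  ∃ (r : ℝ) (c : ℂ), 0 < r ∧ ∀ x, (a x : ℝ) = r * ρ x + (c * σ x).re

/-- `X` is a half space of `a` up to a bounded strip. -/
structure HS (a : K →ₗ[ℚ] ℚ) (X : Set K) : Prop where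
  sat : ∀ x y, a x = a y → x ∈ X → y ∈ X
  bd : ∃ A₀ A₁ : ℚ, (∀ x ∈ X, A₀ < a x) ∧ ∀ x, A₁ < a x → x ∈ X

/-- The open half space `a > A`. -/
def hs (a : K →ₗ[ℚ] ℚ) (A : ℚ) : Set K := {x | A < a x}

/-- The functional `x ↦ a (u x)`. -/
noncomputable def tw (a : K →ₗ[ℚ] ℚ) (u : K) : K →ₗ[ℚ] ℚ := a ∘ₗ LinearMap.mulLeft ℚ u

/-- `γ` spans the common kernel of `a` and `b` and is oriented. -/
structure Ori (σ : K →+* ℂ) (γ : K) (a b : K →ₗ[ℚ] ℚ) : Prop where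
  ne : γ ≠ 0
  ka : a γ = 0
  kb : b γ = 0
  im : ∃ c₁ c₂ : ℝ, 0 < c₁ ∧ c₂ < 0 ∧ ∀ x, (σ x / σ γ).im = c₁ * a x + c₂ * b x

/-- The numerator of the elliptic gamma function. -/
noncomputable def pN (σ : K →+* ℂ) (γ : K) (Λ X Y : Set K) (w : ℂ) : ℂ := lp σ γ (Λ ∩ (X \ Y)) w

/-- The denominator of the elliptic gamma function. -/
noncomputable def pD (σ : K →+* ℂ) (γ : K) (Λ X Y : Set K) (w : ℂ) : ℂ :=
  lp σ (-γ) (Λ ∩ (Y \ X)) w

/-- The elliptic gamma function. -/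
noncomputable def ph (σ : K →+* ℂ) (γ : K) (Λ X Y : Set K) (w : ℂ) : ℂ :=
  pN σ γ Λ X Y w / pD σ γ Λ X Y w

/-- The normalised logarithm of the squared absolute value of `ph`. -/
noncomputable def pl (σ : K →+* ℂ) (γ : K) (Λ X Y : Set K) (w : ℂ) : ℝ :=
  el σ γ (Λ ∩ (X \ Y)) w - el σ (-γ) (Λ ∩ (Y \ X)) w

/-- The theta function of a plane `E`. -/
noncomputable def th (σ : K →+* ℂ) (γ : K) (E Y : Set K) (w : ℂ) : ℂ :=
  lp σ γ (E \ Y) w * lp σ (-γ) (E ∩ Y) w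

/-- The plane `a = r` in `Λ`. -/
def plane (Λ : Set K) (a : K →ₗ[ℚ] ℚ) (r : ℚ) : Set K := {x | x ∈ Λ ∧ a x = r}

/-- `z` is the normalised value of a number `f` with normalised logarithm `l`. -/
def Hat (σ : K →+* ℂ) (f : ℂ) (l : ℝ) (z : ℂ) : Prop :=
  f ≠ 0 ∧ EK σ (z / f) ∧ Real.log (‖z‖ ^ 2) = l

/-- `z` is the value attached to `ε` and the coset `y + L`. -/
def IsVal (ρ : K →+* ℝ) (σ : K →+* ℂ) (ε : K) (L : Submodule ℤ K) (y : K) (z : ℂ) : Prop :=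
  ∀ (a : K →ₗ[ℚ] ℚ) (γ : K), Fn ρ σ a → γ ∈ L → Ori σ γ a (tw a ε⁻¹) →
    Hat σ (ph σ γ (coset L y) (hs a 0) (hs (tw a ε⁻¹) 0) 0)
      (pl σ γ (coset L y) (hs a 0) (hs (tw a ε⁻¹) 0) 0) z

/-- The value attached to `ε` and the coset `y + L` (well defined up to a root of unity). -/
noncomputable def uu (ρ : K →+* ℝ) (σ : K →+* ℂ) (ε : K) (L : Submodule ℤ K) (y : K) : ℂ :=
  if y ∈ L then 1 else Classical.epsilon (IsVal ρ σ ε L y)

/-- The zeta function of a family of elements. -/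
noncomputable def zfam (ρ : K →+* ℝ) (σ : K →+* ℂ) {ι : Type} (a : ι → K) (s : ℂ) : ℂ :=
  ∑' i, ((|ρ (a i)| * ‖σ (a i)‖ ^ 2 : ℝ) : ℂ) ^ (-s)

/-- `s` is a system of representatives of `(ε - 1)⁻¹ L / L`. -/
def Reps (ε : K) (L : Submodule ℤ K) (s : Finset K) : Prop :=
  (∀ g ∈ s, (ε - 1) * g ∈ L) ∧ ∀ x, (ε - 1) * x ∈ L → ∃! g, g ∈ s ∧ x - g ∈ L

/-- The pair `y, y'` is stable under `ε` modulo `L`. -/
def St2 (ε : K) (L : Submodule ℤ K) (y y' : K) : Prop :=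
  ((ε - 1) * y ∈ L ∧ (ε - 1) * y' ∈ L) ∨ (ε * y - y' ∈ L ∧ ε * y' - y ∈ L ∧ y - y' ∉ L)

/-- The balanced monomial in the values of level `ε ^ 2`. -/
noncomputable def mono (ρ : K →+* ℝ) (σ : K →+* ℂ) (ε : K) (L : Submodule ℤ K)
    (y₁ y₂ y₃ y₄ z : K) : ℂ :=
  uu ρ σ (ε ^ 2) L (z + y₁) * uu ρ σ (ε ^ 2) L (z + y₂) /
    (uu ρ σ (ε ^ 2) L (z + y₃) * uu ρ σ (ε ^ 2) L (z + y₄))

end Pool.Agent.CU
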