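import Pool.Agent.Lib.MP_ca56d1_nt.CU.Defs

/-! Interfaces of the analytic parts over a complex cubic field. -/

namespace Pool.Agent.CU

open Complex Filter Topology Pool.Agent.RM
open scoped Real Classical

variable {K : Type} [Field K] [CharZero K]

/-- Elementary facts on complex cubic fields. -/
structure BasSt (ρ : K →+* ℝ) (σ : K →+* ℂ) : Prop where
  rat : ∀ x, (σ x).im = 0 → ∃ q : ℚ, x = q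
  mu : ∀ z, EK σ z → ‖z‖ = 1 → Mu z
  norm : ∀ x, ((Algebra.norm ℚ x : ℚ) : ℝ) = ρ x * ‖σ x‖ ^ 2
  cub : ∀ x : K, ∃ t t' : ℚ, x ^ 3 = t * x ^ 2 - t' * x + (Algebra.norm ℚ x : ℚ)
  ind : ∀ x : K, (¬ ∃ q : ℚ, x = q) → ∀ a b c : ℚ, (a : K) + b * x + c * x ^ 2 = 0 →
    a = 0 ∧ b = 0 ∧ c = 0
  irr : ∀ ε, Eps ρ σ ε → ¬ ∃ q : ℚ, ε = q
  pow : ∀ ε, Eps ρ σ ε → ∀ n : ℕ, n ≠ 0 → Eps ρ σ (ε ^ n)
  uniq : ∀ (r : ℝ) (c : ℂ), (∀ x, r * ρ x + (c * σ x).re = 0) → r = 0 ∧ c = 0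
  fn : ∀ a : K →ₗ[ℚ] ℚ, a ≠ 0 → Fn ρ σ a ∨ Fn ρ σ (-a)
  fn_tw : ∀ a u, Fn ρ σ a → 0 < ρ u → Fn ρ σ (tw a u)
  /-- two independent positive functionals have an oriented period -/
  ori : ∀ a b L, Fn ρ σ a → Fn ρ σ b → (¬ ∃ q : ℚ, b = q • a) → Lt L → ∃ γ ∈ L, Ori σ γ a b
  tw_ne : ∀ a u, a ≠ 0 → (¬ ∃ q : ℚ, u = q) → ¬ ∃ q : ℚ, tw a u = q • a
  /-- adapted basis -/
  basis : ∀ (a b : K →ₗ[ℚ] ℚ) (L : Submodule ℤ K), Fn ρ σ a → Fn ρ σ b → (¬ ∃ q : ℚ, b = q • a) →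
    Lt L → (∀ x ∈ L, ∃ n : ℤ, a x = n) → (∀ x ∈ L, ∃ n : ℤ, b x = n) → (∃ x ∈ L, a x = 1) →
    ∃ (α β γ : K) (s : ℕ), s ≠ 0 ∧ Ori σ γ a b ∧ a α = 1 ∧ a β = 0 ∧ b β = s ∧
      ∀ x, x ∈ L ↔ ∃ i j k : ℤ, x = i * α + j * β + k * γ
  /-- a positive multiple of a functional is primitive on a lattice -/
  prim : ∀ (a : K →ₗ[ℚ] ℚ) (L : Submodule ℤ K), a ≠ 0 → Lt L → ∃ q : ℚ, 0 < q ∧
    (∀ x ∈ L, ∃ n : ℤ, (q • a) x = n) ∧ ∃ x ∈ L, (q • a) x = 1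

/-- Formal properties of the line products. -/
structure LpSt (σ : K →+* ℂ) : Prop where
  diff : ∀ γ S, Adm σ γ S → Differentiable ℂ (lp σ γ S)
  ord : ∀ γ S, Adm σ γ S → ∀ w, analyticOrderAt (lp σ γ S) w = if w ∈ σ '' S then 1 else 0
  xp : ∀ γ S, Adm σ γ S → Xp (gf σ γ S) (co σ γ S)
  xp_uniq : ∀ G c c', Xp G c → Xp G c' → c = c'
  empty : ∀ γ, γ ≠ 0 → Adm σ γ ∅ ∧ (∀ w, lp σ γ ∅ w = 1) ∧ co σ γ ∅ = 0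
  union : ∀ γ S T, Adm σ γ S → Adm σ γ T → Disjoint S T → Adm σ γ (S ∪ T) ∧
    (∀ w, lp σ γ (S ∪ T) w = lp σ γ S w * lp σ γ T w) ∧ co σ γ (S ∪ T) = co σ γ S + co σ γ T
  sdiff : ∀ γ S T, Adm σ γ S → Adm σ γ T → T ⊆ S → Adm σ γ (S \ T)
  add : ∀ γ S t, Adm σ γ S → Adm σ γ {x | x - t ∈ S} ∧
    (∀ w, lp σ γ {x | x - t ∈ S} (w + σ t) = lp σ γ S w) ∧
    ∀ w, nn σ γ {x | x - t ∈ S} (w + σ t) = nn σ γ S w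
  mul : ∀ γ S u, u ≠ 0 → Adm σ γ S → Adm σ (u * γ) {x | u⁻¹ * x ∈ S} ∧
    (∀ w, lp σ (u * γ) {x | u⁻¹ * x ∈ S} (σ u * w) = lp σ γ S w) ∧
    co σ (u * γ) {x | u⁻¹ * x ∈ S} = co σ γ S
  nsmul : ∀ γ S (N : ℕ), N ≠ 0 → Adm σ γ S → Adm σ (N * γ) S ∧
    (∀ w, lp σ (N * γ) S w = lp σ γ S w) ∧ ∀ w, nn σ (N * γ) S w = nn σ γ S w
  /-- finitely many lines -/
  fin : ∀ γ S, γ ≠ 0 → (∀ x, x + γ ∈ S ↔ x ∈ S) → (lines γ S).Finite → Adm σ γ S ∧ Adm σ (-γ) S ∧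
    co σ γ S 0 = 0 ∧ co σ γ S 1 = 0 ∧ Eqv σ 1 (lp σ (-γ) S) (lp σ γ S) ∧
    ∀ w, w ∉ σ '' S → el σ (-γ) S w = el σ γ S w

/-- Admissibility of wedges and half planes. -/
structure AdmSt (σ : K →+* ℂ) : Prop where
  wedge : ∀ L y γ a b X Y, Lt L → γ ∈ L → Ori σ γ a b → HS a X → HS b Y →
    Adm σ γ (coset L y ∩ (X \ Y)) ∧ Adm σ (-γ) (coset L y ∩ (Y \ X))
  half : ∀ L y γ a b r Y, Lt L → γ ∈ L → Ori σ γ a b → HS b Y →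
    Adm σ γ (plane (coset L y) a r \ Y) ∧ Adm σ (-γ) (plane (coset L y) a r ∩ Y)
  box : ∀ L y γ a b (A₀ A₁ B₀ B₁ : ℚ), Lt L → γ ∈ L → Ori σ γ a b →
    (lines γ {x | x ∈ coset L y ∧ A₀ ≤ a x ∧ a x ≤ A₁ ∧ B₀ ≤ b x ∧ b x ≤ B₁}).Finite

/-- Linear relations between sets give linear relations between normalised logarithms. -/
def RPSt (σ : K →+* ℂ) : Prop :=
  ∀ {ι : Type} [Fintype ι] (γ : ι → K) (S : ι → Set K) (n : ι → ℤ), (∀ i, Adm σ (γ i) (S i)) →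
    (∀ x, ∑ i, (if x ∈ S i then n i else 0) = 0) → ∀ w, (∀ i, w ∉ σ '' S i) →
    ∑ i, (n i : ℝ) * el σ (γ i) (S i) w = 0

/-- Modular properties of theta functions and the cocycle relation, modulo `e(K[w])`. -/
structure ModSt (σ : K →+* ℂ) : Prop where
  tl1 : ∀ L y γ a b r Y Y', Lt L → γ ∈ L → Ori σ γ a b → HS b Y → HS b Y' →
    Eqv σ 1 (th σ γ (plane (coset L y) a r) Y) (th σ γ (plane (coset L y) a r) Y')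
  tl2 : ∀ L y γ γ' a b b' r Y Y', Lt L → γ ∈ L → γ' ∈ L → Ori σ γ a b → Ori σ γ' a b' → HS b Y →
    HS b' Y' → Eqv σ 2 (th σ γ (plane (coset L y) a r) Y) (th σ γ' (plane (coset L y) a r) Y')
  coc : ∀ L y γ₁ γ₂ γ₃ a b c X Y W, Lt L → γ₁ ∈ L → γ₂ ∈ L → γ₃ ∈ L → Ori σ γ₁ a b →
    Ori σ γ₂ b c → Ori σ γ₃ c a → HS a X → HS b Y → HS c W →
    Eqv σ 3
      (fun w => pN σ γ₁ (coset L y) X Y w * pN σ γ₂ (coset L y) Y W w * pN σ γ₃ (coset L y) W X w)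
      (fun w => pD σ γ₁ (coset L y) X Y w * pD σ γ₂ (coset L y) Y W w * pD σ γ₃ (coset L y) W X w)

/-- Values with arbitrary thresholds. The functional is `a`, the intermediate step is `u` with
`ρ u > 0`, the level is `ε`. -/
structure HatSt (ρ : K →+* ℝ) (σ : K →+* ℂ) : Prop where
  val : ∀ ε L y, Eps ρ σ ε → ELat ε L → (ε - 1) * y ∈ L → y ∉ L → IsVal ρ σ ε L y (uu ρ σ ε L y)
  /-- two steps `a → a ε⁻¹ → a ε⁻²` with thresholds `A, B, A` -/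
  two : ∀ ε L y a γ (A B : ℚ), Eps ρ σ ε → ELat ε L → (ε ^ 2 - 1) * y ∈ L → Fn ρ σ a → γ ∈ L →
    Ori σ γ a (tw a ε⁻¹) → (y ∈ L → (A < 0 ↔ B < 0)) →
    ∃ (j : ℤ) (ζ : ℂ), Mu ζ ∧ (y ∉ L → j = 0) ∧
      Hat σ (ph σ γ (coset L y) (hs a A) (hs (tw a ε⁻¹) B) 0 *
          ph σ γ (coset L (ε * y)) (hs a B) (hs (tw a ε⁻¹) A) 0)
        (pl σ γ (coset L y) (hs a A) (hs (tw a ε⁻¹) B) 0 +
          pl σ γ (coset L (ε * y)) (hs a B) (hs (tw a ε⁻¹) A) 0)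
        (ζ * σ ε ^ j * uu ρ σ (ε ^ 2) L y)

/-- The formal properties of the values and the Kronecker limit formula. -/
structure PartU (ρ : K →+* ℝ) (σ : K →+* ℂ) : Prop where
  ne : ∀ ε L y, Eps ρ σ ε → ELat ε L → (ε - 1) * y ∈ L → uu ρ σ ε L y ≠ 0
  per : ∀ ε L y y', y - y' ∈ L → uu ρ σ ε L y = uu ρ σ ε L y'
  odd : ∀ ε L y, Eps ρ σ ε → ELat ε L → (ε - 1) * y ∈ L → Mu (uu ρ σ ε L y * uu ρ σ ε L (-y))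
  hom : ∀ ε L L' y t, Eps ρ σ ε → ELat ε L → (ε - 1) * y ∈ L → 0 < ρ t →
    (∀ x, t * x ∈ L' ↔ x ∈ L) → Mu (uu ρ σ ε L' (t * y) / uu ρ σ ε L y)
  /-- distribution relation, change of level and orbit form -/
  lin : ∀ ε, Eps ρ σ ε → ∀ {ι : Type} [Fintype ι] (L : ι → Submodule ℤ K) (y : ι → K) (k : ι → ℕ)
    (n : ι → ℤ), (∀ i, ELat ε (L i)) → (∀ i, k i ≠ 0) → (∀ i, (ε ^ k i - 1) * y i ∈ L i) →
    (∀ i, y i ∉ L i) →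
    (∀ x, ∑ i, ∑ j ∈ Finset.range (k i), (if x - ε ^ j * y i ∈ L i then n i else 0) = 0) →
    Mu (∏ i, uu ρ σ (ε ^ k i) (L i) (y i) ^ n i)
  /-- the Kronecker limit formula -/
  klf : ∀ ε L y, Eps ρ σ ε → ELat ε L → (ε - 1) * y ∈ L → y ∉ L → ∀ {ι : Type} (a : ι → K),
    IsFD ε {x | x ∈ coset L y ∧ 0 < ρ x} a → ∃ Z : ℂ → ℂ, StarkStmt.IsCont (zfam ρ σ a) Z ∧
      Z 0 = 0 ∧ deriv Z 0 = ((-Real.log (‖uu ρ σ ε L y‖ ^ 2) : ℝ) : ℂ)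

/-- The finite identity, in the form used by the valuation arguments. -/
def PartO (ρ : K →+* ℝ) (σ : K →+* ℂ) : Prop :=
  ∀ ε L, Eps ρ σ ε → ELat ε L → ∀ y₁ y₂ y₃ y₄ : K, St2 ε L y₁ y₂ → St2 ε L y₃ y₄ →
    y₁ + y₂ - (y₃ + y₄) ∈ L → y₁ - y₃ ∉ L → y₁ - y₄ ∉ L → y₂ - y₃ ∉ L → y₂ - y₄ ∉ L →
    (∃ x, (ε - 1) * x ∈ L ∧ x + y₁ ∉ L ∧ x + y₂ ∉ L ∧ x + y₃ ∉ L ∧ x + y₄ ∉ L) →
    ∃ h : K → ℂ, (∀ x x', x - x' ∈ L → h x = h x') ∧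
      (∀ x, (ε - 1) * x ∈ L → ∃ j : ℤ, Mu (h x ^ 2 / (σ ε ^ j * mono ρ σ ε L y₁ y₂ y₃ y₄ x)) ∧
        (x + y₁ ∉ L → x + y₂ ∉ L → x + y₃ ∉ L → x + y₄ ∉ L → j = 0)) ∧
      ∀ (O : ValuationSubring ℂ) (t : ℂ) (s : Finset K), Reps ε L s → O.valuation (σ ε) = 1 →
        O.valuation (σ ε + 1) = 1 →
        (∀ z, (ε ^ 2 - 1) * z ∈ L → O.valuation (mono ρ σ ε L y₁ y₂ y₃ y₄ z) ≤ O.valuation t ^ 2) →
        ∀ Z, (ε - 1) * Z ∈ L →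
          O.valuation (∑ x ∈ s, h x * h (Z - x)) ≤ O.valuation (σ ε - 1) * O.valuation t ^ 2

end Pool.Agent.CU
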