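import Pool.Agent.Lib.MP_ca56d1_nt.CU.St
import Pool.Agent.Lib.MP_ca56d1_nt.D.Defs

/-! Interface of the valuation part over a complex cubic field. -/

namespace Pool.Agent.CU

open NumberField IsDedekindDomain Pool.Agent.Stark Pool.Agent.Stark.AR Pool.Agent.RM
  Pool.Agent.StarkD

variable {K : Type} [Field K] [NumberField K]

/-- The fractional ideal `D⁻¹`. -/
noncomputable abbrev fi (D : Dv K) : Submodule ℤ K := lat ∅ 0 D

/-- `O` lies over the prime `q`. -/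
def Over (σ : K →+* ℂ) (q : Pr K) (O : ValuationSubring ℂ) : Prop :=
  ∀ x : 𝓞 K, O.valuation (σ x) ≤ 1 ∧ (x ∈ q.asIdeal → O.valuation (σ x) < 1)

/-- `E` is a large unit congruent to one modulo four. -/
def Big (ρ : K →+* ℝ) (E : K) : Prop := 20 ≤ ρ E ∧ ∃ z : 𝓞 K, E - 1 = 4 * z

/-- `q` is an unramified prime of degree one over `p ≥ 5` and `E ^ (2 (p - 1))` is not congruent
to one modulo the other primes over `p`. -/
structure Good (E : K) (q : Pr K) (p : ℕ) : Prop where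
  prime : p.Prime
  five : 5 ≤ p
  norm : Ideal.absNorm q.asIdeal = p
  unr : og q (p : K) = 1
  other : ∀ q' : Pr K, q' ≠ q → (p : 𝓞 K) ∈ q'.asIdeal →
    E ^ (2 * (p - 1)) - 1 ∉ pw (q'.valuation K) 1

/-- The conclusions of the valuation part. -/
structure PartC (ρ : K →+* ℝ) (σ : K →+* ℂ) : Prop where
  /-- units at the places over a good prime -/
  unit : ∀ ε (m : ℕ) q p, Eps ρ σ ε → IsU ε → m ≠ 0 → Big ρ (ε ^ m) → Good (ε ^ m) q p →
    ∀ O, Over σ q O → ∀ D y, (ε - 1) * y ∈ fi D → O.valuation (uu ρ σ ε (fi D) y) = 1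
  /-- algebraicity -/
  alg : ∀ ε (m : ℕ) q p, Eps ρ σ ε → IsU ε → m ≠ 0 → Big ρ (ε ^ m) → Good (ε ^ m) q p →
    ∀ D y, (ε - 1) * y ∈ fi D → IsAlgebraic ℚ (uu ρ σ ε (fi D) y)
  /-- the Kronecker congruence with a root of unity that does not depend on the place -/
  cong : ∀ ε (m : ℕ) q p, Eps ρ σ ε → IsU ε → m ≠ 0 → Big ρ (ε ^ m) → Good (ε ^ m) q p →
    ∀ D y, (ε - 1) * y ∈ fi D → (∃ q', q' ≠ q ∧ y ∉ pw (q'.valuation K) (-D q')) →
    ∃ ξ : ℂ, Mu ξ ∧ ∀ O, Over σ q O →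
      Cg O (uu ρ σ ε (fi (D + pd q)) y) (ξ * uu ρ σ ε (fi D) y ^ p)

end Pool.Agent.CU
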