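import Pool.Agent.Lib.MP_ca56d1_nt.CU.St

/-! The finite identity for a function and for its inverse. -/

namespace Pool.Agent.CU

open Pool.Agent.RM

variable {K : Type} [Field K] [CharZero K]

/-- The bound for the convolution square of `h` in terms of the monomial `m`. -/
def CBd (σ : K →+* ℂ) (ε : K) (L : Submodule ℤ K) (m h : K → ℂ) : Prop :=
  ∀ (O : ValuationSubring ℂ) (t : ℂ) (s : Finset K), Reps ε L s → O.valuation (σ ε) = 1 →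
    O.valuation (σ ε + 1) = 1 →
    (∀ z, (ε ^ 2 - 1) * z ∈ L → O.valuation (m z) ≤ O.valuation t ^ 2) →
    ∀ Z, (ε - 1) * Z ∈ L →
      O.valuation (∑ x ∈ s, h x * h (Z - x)) ≤ O.valuation (σ ε - 1) * O.valuation t ^ 2

/-- The finite identity, for `h` and for `1 / h`. -/
def PartO2 (ρ : K →+* ℝ) (σ : K →+* ℂ) : Prop :=
  ∀ ε L, Eps ρ σ ε → ELat ε L → ∀ y₁ y₂ y₃ y₄ : K, St2 ε L y₁ y₂ → St2 ε L y₃ y₄ →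
    y₁ + y₂ - (y₃ + y₄) ∈ L → y₁ - y₃ ∉ L → y₁ - y₄ ∉ L → y₂ - y₃ ∉ L → y₂ - y₄ ∉ L →
    (∃ x, (ε - 1) * x ∈ L ∧ x + y₁ ∉ L ∧ x + y₂ ∉ L ∧ x + y₃ ∉ L ∧ x + y₄ ∉ L) →
    ∃ h : K → ℂ, (∀ x x', x - x' ∈ L → h x = h x') ∧
      (∀ x, (ε - 1) * x ∈ L → ∃ j : ℤ, Mu (h x ^ 2 / (σ ε ^ j * mono ρ σ ε L y₁ y₂ y₃ y₄ x)) ∧
        (x + y₁ ∉ L → x + y₂ ∉ L → x + y₃ ∉ L → x + y₄ ∉ L → j = 0)) ∧
      CBd σ ε L (mono ρ σ ε L y₁ y₂ y₃ y₄) h ∧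
      CBd σ ε L (mono ρ σ ε L y₃ y₄ y₁ y₂) fun x => (h x)⁻¹

end Pool.Agent.CU
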